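import Mathlib
import Pool.Agent.Q133.OPCore
import Pool.Agent.Q133.OPEval

/-!
Every finite outerplanar graph has degenerate distance number at most two.
-/

namespace Pool.Agent.Results.MP_aa6a81_co.DdnTwo

open Pool.Agent.Q133.OPCore Pool.Agent.Q133.OPEval

/-- A graph is outerplanar when its vertices can be put in an order (equivalently, at distinct
points of a circle) so that no two edges interleave (equivalently, no two edges, drawn as chords of
the circle, cross). -/
def IsOuterplanar {V : Type*} (G : SimpleGraph V) : Prop :=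
  ∃ σ : V → ℕ, Function.Injective σ ∧
    ∀ a b c d, G.Adj a c → G.Adj b d → ¬ (σ a < σ b ∧ σ b < σ c ∧ σ c < σ d)

/-- The set of edge lengths of a degenerate drawing. -/
def lengths {V : Type*} (G : SimpleGraph V) (p : V → EuclideanSpace ℝ (Fin 2)) : Set ℝ :=
  {r | ∃ v w, G.Adj v w ∧ dist (p v) (p w) = r}

/-- The degenerate distance number: the least number of distinct edge lengths of a degenerate
drawing, that is, of an injective map from the vertices to the plane. -/
noncomputable def ddn {V : Type*} (G : SimpleGraph V) : ℕ :=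
  sInf {k | ∃ p : V → EuclideanSpace ℝ (Fin 2), Function.Injective p ∧ (lengths G p).ncard = k}

/-- Every finite outerplanar graph has a degenerate drawing with at most two edge lengths. -/
theorem drawing {V : Type*} [Finite V] (G : SimpleGraph V) (hG : IsOuterplanar G) :
    ∃ p : V → EuclideanSpace ℝ (Fin 2), Function.Injective p ∧
      ∃ a b : ℝ, ∀ v w, G.Adj v w → dist (p v) (p w) = a ∨ dist (p v) (p w) = b := by
  classical
  have := Fintype.ofFinite V
  obtain ⟨σ, hσ, hcross⟩ := hG
  obtain ⟨τ, hτ, ht⟩ := exists_tau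
  set m := Finset.univ.sup σ with hm
  have hle : ∀ v, σ v ≤ m := fun v => Finset.le_sup (Finset.mem_univ v)
  obtain ⟨p, hp1, hp2, N, hN⟩ := coding (fun i j => ∃ v w, G.Adj v w ∧ σ v = i ∧ σ w = j)
    (by
      rintro a b c d h1 h2 h3 ⟨v, w, hvw, rfl, rfl⟩ ⟨v', w', hvw', rfl, rfl⟩
      exact hcross _ _ _ _ hvw hvw' ⟨h1, h2, h3⟩) m
  have hb : Function.Injective (fun n : ℕ => n) := fun _ _ h => h
  set q : V → ℂ := fun v => pt τ (fun n => n) (N + 1) (p (σ v)) with hq
  have hqinj : Function.Injective q := by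
    have key : ∀ v w, σ v < σ w → q v ≠ q w := by
      intro v w hvw h
      have h1 := hp1 (σ v) (σ w) hvw (hle w)
      apply h1
      have h2 : pt τ (fun n => n) (N + 1) (fun j => p (σ v) j - p (σ w) j) = 0 := by
        rw [← pt_sub]; exact sub_eq_zero.2 h
      have h3 := indep ht hb h2
      funext j
      rcases Nat.lt_or_ge N j with hj | hj
      · rw [hN _ (hle v) j hj, hN _ (hle w) j hj]
      · have := h3 j (by omega); omega
    intro v w h
    by_contra hne
    rcases Nat.lt_or_gt_of_ne (fun h => hne (hσ h) : σ v ≠ σ w) with h' | h'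
    · exact key v w h' h
    · exact key w v h' h.symm
  have hdist : ∀ v w, σ v < σ w → G.Adj v w → ‖q w - q v‖ = 1 ∨ ‖q w - q v‖ = ‖1 - τ‖ := by
    intro v w hvw hadj
    have h1 := hp2 (σ v) (σ w) hvw (hle w) ⟨v, w, hadj, rfl, rfl⟩
    obtain ⟨s, hs, k, -, h | ⟨-, h⟩⟩ := ep_edgeVec (τ := τ) (b := fun n => n) h1
      (hN _ (hle v)) (hN _ (hle w))
    · left
      rw [hq]
      rw [h]
      exact norm_edge_one (b := fun n => n) hτ hs k
    · right
      rw [hq]
      rw [h, norm_edge_two (b := fun n => n) hτ (fun _ _ h => h) hs k]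
      simp
  set ι := Complex.orthonormalBasisOneI.repr
  refine ⟨fun v => ι (q v), fun v w h => hqinj (ι.injective h), 1, ‖1 - τ‖, fun v w hadj => ?_⟩
  rw [ι.dist_map, dist_eq_norm]
  rcases Nat.lt_or_gt_of_ne (fun h => hadj.ne (hσ h) : σ v ≠ σ w) with h' | h'
  · rw [norm_sub_rev]; exact hdist v w h' hadj
  · exact hdist w v h' hadj.symm

/-- Every finite outerplanar graph has degenerate distance number at most two. -/
theorem result {V : Type*} [Finite V] (G : SimpleGraph V) (hG : IsOuterplanar G) :
    ddn G ≤ 2 := by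
  obtain ⟨p, hp, a, b, h⟩ := drawing G hG
  have hsub : lengths G p ⊆ {a, b} := by
    rintro r ⟨v, w, hadj, rfl⟩
    exact h v w hadj
  have h1 : (lengths G p).ncard ≤ 2 := by
    refine (Set.ncard_le_ncard hsub (Set.toFinite _)).trans ?_
    refine (Set.ncard_insert_le a {b}).trans ?_
    rw [Set.ncard_singleton]
  have h2 : ddn G ≤ (lengths G p).ncard := Nat.sInf_le ⟨p, hp, rfl⟩
  exact h2.trans h1

end Pool.Agent.Results.MP_aa6a81_co.DdnTwo
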